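import Pool.Agent.L7h70.HP.Fin

/-!
# Halving lines and `k`-lines of point sets near a square grid

Definitions. In `Pool/Agent/W296/HL3.lean` (namespace `Pool.Agent.W296.HL`):

* `Line a b c = {p | a * p.1 + b * p.2 = c}`,
* `GeneralPosition P`: no three distinct points of `P` on a common line,
* `IsBisector P L`: `L` is a line through two distinct points of `P` with exactly
  `|P| / 2 - 1` points of `P` on each open side.

In `Pool/Agent/L7h70/HP/Dey.lean` (namespace `Pool.Agent.L7h70.HP`):

* `IsKLine P k L`: `L` is a line through two distinct points of `P` such that one of the two open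
  half-planes bounded by it contains exactly `k` points of `P`.

Proof idea.  Let `R ≤ N`.  By Dirichlet's theorem every direction is near to the direction of a
primitive integer vector `v` with coordinates at most `R`.  For a fixed `v` consider the lattice
lines of direction `v`.  If a `k`-line has a direction near to `v`, then for all but `O(w)`
consecutive lattice lines, `w = N / R + δ |v|`, the points near to them are on the side of the
`k`-line to be expected, and the count of the points on one side shows that the `O(w)` lattice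
lines are nearly the same for all these `k`-lines.  So these `k`-lines are `k'`-lines of a set of
`O(w μ N / |v|)` points, `k'` depending only on `v`, and Dey's theorem bounds their number.  The sum
over all `v` is optimal for `R = N / √(1 + δ N)`.
-/

set_option autoImplicit false

open Finset

namespace Pool.Agent.Results.MP_e17eac_co.NearGrids

open Pool.Agent.W296.HL Pool.Agent.L7h70.HP

open scoped Classical in
/-- Let `P` be a finite set of points of the plane in general position. Suppose that every point
`x` of `P` is at distance at most `δ` (in each coordinate) from a point `X x` of the grid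
`{1, …, N}²` and that every grid point is used at most `μ` times. Then for every `k` at most
`10⁶ μ^(4/3) N² (1 + δ N)^(1/3)` lines pass through two points of `P` and have exactly `k` points
of `P` on one of their sides, and `P` has at most so many bisectors. -/
theorem result (P : Finset (ℝ × ℝ)) (hP : GeneralPosition P) (N μ : ℕ) (δ : ℝ) (hδ : 0 ≤ δ)
    (X : ℝ × ℝ → ℤ × ℤ)
    (hX : ∀ x ∈ P, 1 ≤ (X x).1 ∧ (X x).1 ≤ N ∧ 1 ≤ (X x).2 ∧ (X x).2 ≤ N)
    (hXδ : ∀ x ∈ P, |x.1 - (X x).1| ≤ δ ∧ |x.2 - (X x).2| ≤ δ)
    (hμ : ∀ z : ℤ × ℤ, #{x ∈ P | X x = z} ≤ μ) :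
    (∀ k : ℕ, ({L | IsKLine P k L}.ncard : ℝ) ≤
      10 ^ 6 * (μ : ℝ) ^ (4 / 3 : ℝ) * (N : ℝ) ^ 2 * (1 + δ * N) ^ (1 / 3 : ℝ)) ∧
    ({L | IsBisector P L}.ncard : ℝ) ≤
      10 ^ 6 * (μ : ℝ) ^ (4 / 3 : ℝ) * (N : ℝ) ^ 2 * (1 + δ * N) ^ (1 / 3 : ℝ) := by
  have hN : Near P X N μ δ :=
    ⟨gen_of_gp hP, hX, fun z => by convert hμ z, hXδ⟩
  have h1 : ∀ k : ℕ, ({L | IsKLine P k L}.ncard : ℝ) ≤
      10 ^ 6 * (μ : ℝ) ^ (4 / 3 : ℝ) * (N : ℝ) ^ 2 * (1 + δ * N) ^ (1 / 3 : ℝ) := fun k =>
    (by exact_mod_cast kline_le P k : ({L | IsKLine P k L}.ncard : ℝ) ≤ #(E P k)).trans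
      (main hN hδ k)
  refine ⟨h1, le_trans ?_ (h1 (#P / 2 - 1))⟩
  exact_mod_cast Set.ncard_le_ncard (fun L hL => bisector_kline hL) (kline_finite P _)

end Pool.Agent.Results.MP_e17eac_co.NearGrids
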