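import Pool.Agent.L7h42.RH.Fin
import Pool.Agent.L7h42.RH.Win
import Pool.Agent.L7h42.RH.Uni
import Pool.Agent.L7h42.RH.Avg
import Pool.Agent.L7h42.RH.Lb
import Pool.Agent.L7h42.RH.Asy
import Pool.Agent.L7h22.RH.Hyp
import Pool.Agent.Results.MP_e17eac_co.TripleLogPower

/-!
# Halving lines of random points

`Line`, `GeneralPosition`, `IsBisector` and `f` are defined in `Pool/Agent/KLev/Halving.lean`
(namespace `KLev.Halving`):

* `Line a b c = {p | a * p.1 + b * p.2 = c}`,
* `GeneralPosition P`: no three distinct points of `P` on a common line,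
* `IsBisector P L`: `L` is a line through two distinct points of `P` with exactly
  `|P| / 2 - 1` points of `P` on each open side,
* `f n`: the maximum of the number of bisectors over all `n`-point sets in general position.
-/

set_option autoImplicit false

namespace Pool.Agent.Results.MP_e17eac_co.RandomPoints

open Filter Finset MeasureTheory KLev
open Pool.Agent.L7h42.RH (LL)

/-- The number of bisectors (halving lines) of the finite set `P`. -/
noncomputable def nb (P : Finset (ℝ × ℝ)) : ℕ := {L | Halving.IsBisector P L}.ncard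

/-- A probability distribution on the plane for which every line has measure zero. -/
def NoLine (μ : Measure (ℝ × ℝ)) : Prop :=
  IsProbabilityMeasure μ ∧ ∀ a b c : ℝ, (a ≠ 0 ∨ b ≠ 0) → μ (Halving.Line a b c) = 0

/-- The distribution of `n` independent points with distribution `μ`. -/
noncomputable abbrev iid (n : ℕ) (μ : Measure (ℝ × ℝ)) : Measure (Fin n → ℝ × ℝ) :=
  Measure.pi fun _ => μ

/-- The expected number of bisectors of `n` independent points with distribution `μ`. -/
noncomputable def expected (n : ℕ) (μ : Measure (ℝ × ℝ)) : ℝ :=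
  ∫ X, (nb (univ.image X) : ℝ) ∂(iid n μ)

lemma hyp : Pool.Agent.L7h42.RH.S_HYP := Pool.Agent.L7h22.RH.s_HYP

lemma noLine_diffuse {μ : Measure (ℝ × ℝ)} : NoLine μ ↔ Pool.Agent.L7h42.RH.Diffuse μ := Iff.rfl

lemma exists_noLine : ∃ μ : Measure (ℝ × ℝ), NoLine μ := by
  classical
  have hne : ((0 : ℝ), (0 : ℝ)) ≠ ((1 : ℝ), (0 : ℝ)) := by
    intro h
    have := congrArg Prod.fst h
    norm_num at this
  have hc : #({((0 : ℝ), (0 : ℝ)), ((1 : ℝ), (0 : ℝ))} : Finset (ℝ × ℝ)) = 2 := card_pair hne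
  obtain ⟨μ, D, h, -⟩ := Pool.Agent.L7h42.RH.s_CLU {((0 : ℝ), (0 : ℝ)), ((1 : ℝ), (0 : ℝ))}
    (by
      intro p hp q hq x hx h1 h2 h3
      exfalso
      simp only [mem_insert, mem_singleton] at hp hq hx
      rcases hp with rfl | rfl <;> rcases hq with rfl | rfl <;> rcases hx with rfl | rfl <;>
        simp_all)
    (by rw [hc]; exact even_two) (by rw [hc])
  exact ⟨μ, h⟩

lemma lower (n s : ℕ) (hn : Even n) (hs : Even s) (hn8 : 8 ≤ n) (hns : n ≤ s ^ 2) :
    ∃ μ : Measure (ℝ × ℝ), NoLine μ ∧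
      1 / 84 * (n : ℝ) ^ (3 / 2 : ℝ) * (Halving.f s : ℝ) / (s : ℝ) ^ 2 ≤ expected n μ := by
  by_cases hne : {m : ℕ | ∃ P : Finset (ℝ × ℝ), P.card = s ∧ Halving.GeneralPosition P ∧
    {L | Halving.IsBisector P L}.ncard = m}.Nonempty
  · have hbdd : BddAbove {m : ℕ | ∃ P : Finset (ℝ × ℝ), P.card = s ∧ Halving.GeneralPosition P ∧
        {L | Halving.IsBisector P L}.ncard = m} := by
      refine ⟨s * s, ?_⟩
      rintro m ⟨Q, hQ, -, rfl⟩
      rw [← hQ]; exact Halving.bisectors_ncard_le Q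
    obtain ⟨P, h1, h2, h3⟩ := Nat.sSup_mem hne hbdd
    obtain ⟨μ, h4, h5⟩ := Pool.Agent.L7h42.RH.low_main n s hn hs hn8 hns P h2 h1
    refine ⟨μ, h4, le_trans (le_of_eq ?_) h5⟩
    have h6 : Halving.f s = {L | Halving.IsBisector P L}.ncard := h3.symm
    rw [h6]
    rfl
  · have h0 : Halving.f s = 0 := by
      unfold Halving.f
      rw [Set.not_nonempty_iff_eq_empty.mp hne, csSup_empty]
      rfl
    obtain ⟨μ, hμ⟩ := exists_noLine
    refine ⟨μ, hμ, ?_⟩
    rw [h0, Nat.cast_zero, mul_zero, zero_div]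
    exact integral_nonneg fun X => Nat.cast_nonneg _

/-- **Halving lines of random points.**
1. Independent points whose distribution gives measure zero to every line are almost surely
distinct and in general position, and their number of bisectors is integrable.
2. There is a constant `C` such that for all even `n ≥ 2` the expected number of bisectors of `n`
independent points is at most `C n ^ (7/6)` for every distribution that gives measure zero to every
line, and the average number of bisectors of the `n`-element subsets of `Q` is at most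
`C n ^ (7/6)` for every finite set `Q` in general position with at least `2 n` points.
3. For even `n ≥ 8` and even `s` with `n ≤ s ^ 2` there is a distribution for which the expected
number is at least `n ^ (3/2) f(s) / (84 s ^ 2)`, where `f(s)` is the maximum number of bisectors of
`s` points in general position.
4. For some `c > 0` and all large even `n` there is a distribution for which the expected number is
at least `n ^ (1 + c (log log log n / log log n) ^ 4)`.
5. An upper bound `K n ^ (1 + β)` for the expected number (all distributions, all large even `n`)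
implies the upper bound `K' s ^ (1 + 2 β)` for `f(s)`, for all large even `s`. -/
theorem result :
    (∀ μ : Measure (ℝ × ℝ), NoLine μ → ∀ n : ℕ,
      (∀ᵐ X ∂(iid n μ), Function.Injective X ∧ Halving.GeneralPosition (univ.image X)) ∧
      Integrable (fun X => (nb (univ.image X) : ℝ)) (iid n μ)) ∧
    (∃ C : ℝ, 0 < C ∧ ∀ n : ℕ, Even n → 2 ≤ n →
      (∀ μ : Measure (ℝ × ℝ), NoLine μ → expected n μ ≤ C * (n : ℝ) ^ (7 / 6 : ℝ)) ∧
      ∀ Q : Finset (ℝ × ℝ), Halving.GeneralPosition Q → 2 * n ≤ #Q →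
        (∑ S ∈ powersetCard n Q, (nb S : ℝ)) / ((#Q).choose n : ℝ) ≤
          C * (n : ℝ) ^ (7 / 6 : ℝ)) ∧
    (∀ n s : ℕ, Even n → Even s → 8 ≤ n → n ≤ s ^ 2 → ∃ μ : Measure (ℝ × ℝ), NoLine μ ∧
      1 / 84 * (n : ℝ) ^ (3 / 2 : ℝ) * (Halving.f s : ℝ) / (s : ℝ) ^ 2 ≤ expected n μ) ∧
    (∃ c : ℝ, 0 < c ∧ ∀ᶠ n : ℕ in atTop, Even n → ∃ μ : Measure (ℝ × ℝ), NoLine μ ∧
      (n : ℝ) ^ (1 + c * (Real.log (Real.log (Real.log n)) / Real.log (Real.log n)) ^ 4) ≤
        expected n μ) ∧
    (∀ β K : ℝ, (∀ᶠ n : ℕ in atTop, Even n → ∀ μ : Measure (ℝ × ℝ), NoLine μ →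
        expected n μ ≤ K * (n : ℝ) ^ (1 + β)) →
      ∃ K' : ℝ, ∀ᶠ s : ℕ in atTop, Even s →
        (Halving.f s : ℝ) ≤ K' * (s : ℝ) ^ (1 + 2 * β)) := by
  classical
  obtain ⟨C, hC, hfin⟩ := Pool.Agent.L7h42.RH.s_FIN Pool.Agent.L7h42.RH.s_WIN
    Pool.Agent.L7h42.RH.s_AVG Pool.Agent.L7h42.RH.s_UNI hyp
  have hiid := Pool.Agent.L7h22.RH.s_IID Pool.Agent.L7h22.RH.s_GPA Pool.Agent.L7h22.RH.s_MEA
  refine ⟨?_, ⟨C, hC, ?_⟩, lower, ?_, ?_⟩
  · intro μ hμ n
    refine ⟨Pool.Agent.L7h22.RH.s_GPA μ hμ n, ?_⟩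
    refine (hiid μ hμ n n ((n * n : ℕ) : ℝ) le_rfl ?_).1
    intro Q _ hQc
    rw [Nat.choose_self, Nat.cast_one, mul_one, ← hQc, powersetCard_self, sum_singleton]
    exact_mod_cast Halving.bisectors_ncard_le Q
  · intro n hn hn2
    constructor
    · intro μ hμ
      refine (hiid μ hμ n (2 * n) (C * (n : ℝ) ^ (7 / 6 : ℝ)) (by omega) ?_).2
      intro Q hQ hQc
      have := hfin n hn hn2 Q hQ hQc.ge
      rw [hQc] at this
      exact this
    · intro Q hQ hQc
      have h1 := hfin n hn hn2 Q hQ hQc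
      have h2 : (0 : ℝ) < ((#Q).choose n : ℝ) := by
        have : 0 < (#Q).choose n := Nat.choose_pos (by omega)
        exact_mod_cast this
      rw [div_le_iff₀ h2]
      exact h1
  · obtain ⟨c0, hc0, hf⟩ := Pool.Agent.Results.MP_e17eac_co.TripleLogPower.result
    obtain ⟨c, hc, h⟩ := Pool.Agent.L7h42.RH.asym Halving.f hc0 hf
    refine ⟨c, hc, ?_⟩
    filter_upwards [h, eventually_ge_atTop 8] with n hn hn8 heven
    obtain ⟨s, hs, hns, hle⟩ := hn
    obtain ⟨μ, hμ, h2⟩ := lower n s heven hs hn8 hns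
    exact ⟨μ, hμ, le_trans hle h2⟩
  · intro β K h
    obtain ⟨N, hN⟩ := eventually_atTop.mp h
    refine ⟨84 * K, ?_⟩
    filter_upwards [eventually_ge_atTop (max N 3)] with s hs heven
    have hs3 : 3 ≤ s := le_trans (le_max_right _ _) hs
    have hsN : N ≤ s := le_trans (le_max_left _ _) hs
    have hs2 : s ≤ s ^ 2 := Nat.le_self_pow (by norm_num) s
    have he2 : Even (s ^ 2) := heven.pow_of_ne_zero (by norm_num)
    obtain ⟨μ, hμ, h2⟩ := lower (s ^ 2) s he2 heven (by nlinarith) le_rfl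
    have h3 := hN (s ^ 2) (hsN.trans hs2) he2 μ hμ
    have hs0 : (0 : ℝ) < s := by
      have : 0 < s := by omega
      exact_mod_cast this
    have e1 : (((s ^ 2 : ℕ) : ℝ)) ^ (3 / 2 : ℝ) = (s : ℝ) ^ 3 := by
      push_cast
      rw [← Real.rpow_natCast, ← Real.rpow_natCast, ← Real.rpow_mul hs0.le]; norm_num
    have e2 : (((s ^ 2 : ℕ) : ℝ)) ^ (1 + β) = (s : ℝ) * (s : ℝ) ^ (1 + 2 * β) := by
      push_cast
      have e3 : (s : ℝ) * (s : ℝ) ^ (1 + 2 * β) = (s : ℝ) ^ (1 + (1 + 2 * β)) := by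
        rw [Real.rpow_add hs0 1 (1 + 2 * β), Real.rpow_one]
      rw [e3, ← Real.rpow_natCast, ← Real.rpow_mul hs0.le]
      congr 1
      push_cast
      ring
    rw [e1] at h2
    rw [e2] at h3
    have h4 : 1 / 84 * (s : ℝ) ^ 3 * (Halving.f s : ℝ) / (s : ℝ) ^ 2 =
        (s : ℝ) * ((Halving.f s : ℝ) / 84) := by field_simp
    rw [h4] at h2
    have h5 : (s : ℝ) * ((Halving.f s : ℝ) / 84) ≤ (s : ℝ) * (K * (s : ℝ) ^ (1 + 2 * β)) := by
      refine h2.trans (h3.trans (le_of_eq (by ring)))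
    have h6 := le_of_mul_le_mul_left h5 hs0
    linarith

end Pool.Agent.Results.MP_e17eac_co.RandomPoints
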