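import Pool.Agent.L7h70.HP.SD2

/-!
# Halving lines and `k`-lines of perturbations of sets with small doubling

Definitions. In `Pool/Agent/W296/HL3.lean` (namespace `Pool.Agent.W296.HL`):

* `Line a b c = {p | a * p.1 + b * p.2 = c}`,
* `GeneralPosition P`: no three distinct points of `P` on a common line,
* `IsBisector P L`: `L` is a line through two distinct points of `P` with exactly
  `|P| / 2 - 1` points of `P` on each open side.

In `Pool/Agent/L7h70/HP/Dey.lean` (namespace `Pool.Agent.L7h70.HP`):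

* `IsKLine P k L`: `L` is a line through two distinct points of `P` such that one of the two open
  half-planes bounded by it contains exactly `k` points of `P`.

`dist` is the maximum distance of `ℝ × ℝ` and `Q + B` the set of the sums.

Proof idea.  Let `P` be a perturbation of `Q` and consider the `k`-lines of `P` which are near to
lines of a fixed direction. Counting the points on one side shows that they are all near to the same
line `ℓ`, and that they are `k'`-lines of the perturbed points of `ℓ`, with `k'` depending only on the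
direction. So their number is at most `14 T ^ (4/3)` by Dey's theorem, `T` being the largest number of
points of `Q` on a line of this direction. The translates of the richest line by the elements of
`B` (or the other way round) are at least `|Q| / T` lines with at least `T` points of `Q + B`, so by
the theorem of Szemerédi and Trotter there are at most `C (K² |Q| / T² + K)` such directions.
-/

set_option autoImplicit false

open Finset
open scoped Pointwise

namespace Pool.Agent.Results.MP_e17eac_co.SmallDoubling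

open Pool.Agent.W296.HL Pool.Agent.L7h70.HP

open scoped Classical in
/-- Let `Q` and `B` be finite sets of points of the plane, `0 < |Q| ≤ |B|`, `|Q + B| ≤ K |Q|`, and let
no line contain more than `m` points of `Q`. Put `M = 2 · 10⁵ (K² |Q| + K m ^ (4 / 3))`.

1. Let `P` be a set in general position and `q` an injective map of `P` into `Q` such that the
orientation of three points of `P` is that of their images if these are not collinear. Then `P` has
at most `M` bisectors, and for every `k` at most `M` lines pass through two points of `P` and have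
exactly `k` points of `P` on one of their sides.
2. There is `ε > 0` such that this holds for every set `P` in general position which has an
injective map into `Q` that moves all points by less than `ε`. -/
theorem result (Q B : Finset (ℝ × ℝ)) (K : ℝ) (m : ℕ) (hQ : Q.Nonempty) (hQB : #Q ≤ #B)
    (hK : (#(Q + B) : ℝ) ≤ K * #Q)
    (hm : ∀ a b c : ℝ, (a ≠ 0 ∨ b ≠ 0) → #{x ∈ Q | x ∈ Line a b c} ≤ m) :
    (∀ (P : Finset (ℝ × ℝ)) (q : ℝ × ℝ → ℝ × ℝ), GeneralPosition P → (∀ x ∈ P, q x ∈ Q) →
      Set.InjOn q P →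
      (∀ x ∈ P, ∀ y ∈ P, ∀ z ∈ P, 0 < ((q y).1 - (q x).1) * ((q z).2 - (q x).2) -
        ((q y).2 - (q x).2) * ((q z).1 - (q x).1) →
        0 < (y.1 - x.1) * (z.2 - x.2) - (y.2 - x.2) * (z.1 - x.1)) →
      (∀ k : ℕ, ({L | IsKLine P k L}.ncard : ℝ) ≤
        2 * 10 ^ 5 * (K ^ 2 * #Q + K * (m : ℝ) ^ (4 / 3 : ℝ))) ∧
      ({L | IsBisector P L}.ncard : ℝ) ≤
        2 * 10 ^ 5 * (K ^ 2 * #Q + K * (m : ℝ) ^ (4 / 3 : ℝ))) ∧
    ∃ ε : ℝ, 0 < ε ∧ ∀ (P : Finset (ℝ × ℝ)) (q : ℝ × ℝ → ℝ × ℝ), GeneralPosition P →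
      (∀ x ∈ P, q x ∈ Q ∧ dist x (q x) < ε) → Set.InjOn q P →
      (∀ k : ℕ, ({L | IsKLine P k L}.ncard : ℝ) ≤
        2 * 10 ^ 5 * (K ^ 2 * #Q + K * (m : ℝ) ^ (4 / 3 : ℝ))) ∧
      ({L | IsBisector P L}.ncard : ℝ) ≤
        2 * 10 ^ 5 * (K ^ 2 * #Q + K * (m : ℝ) ^ (4 / 3 : ℝ)) := by
  have hm' : ∀ a b c : ℝ, (a ≠ 0 ∨ b ≠ 0) → #{x ∈ Q | a * x.1 + b * x.2 = c} ≤ m := by
    intro a b c hab
    refine le_trans (le_of_eq ?_) (hm a b c hab)
    congr 1
  have key : ∀ (P : Finset (ℝ × ℝ)) (q : ℝ × ℝ → ℝ × ℝ), Pert P Q q →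
      (∀ k : ℕ, ({L | IsKLine P k L}.ncard : ℝ) ≤
        2 * 10 ^ 5 * (K ^ 2 * #Q + K * (m : ℝ) ^ (4 / 3 : ℝ))) ∧
      ({L | IsBisector P L}.ncard : ℝ) ≤
        2 * 10 ^ 5 * (K ^ 2 * #Q + K * (m : ℝ) ^ (4 / 3 : ℝ)) := by
    intro P q h
    have h1 : ∀ k : ℕ, ({L | IsKLine P k L}.ncard : ℝ) ≤
        2 * 10 ^ 5 * (K ^ 2 * #Q + K * (m : ℝ) ^ (4 / 3 : ℝ)) := fun k =>
      (by exact_mod_cast kline_le P k : ({L | IsKLine P k L}.ncard : ℝ) ≤ #(E P k)).trans
        (main_sd h hQ hQB hK hm' k)
    refine ⟨h1, le_trans ?_ (h1 (#P / 2 - 1))⟩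
    exact_mod_cast Set.ncard_le_ncard (fun L hL => bisector_kline hL) (kline_finite P _)
  refine ⟨fun P q hP hq hinj hori => key P q ⟨gen_of_gp hP, hq, hinj, hori⟩, ?_⟩
  obtain ⟨ε, hε, h⟩ := exists_eps Q
  refine ⟨ε, hε, fun P q hP hq hinj => key P q ⟨gen_of_gp hP, fun x hx => (hq x hx).1, hinj, ?_⟩⟩
  intro x hx y hy z hz h0
  exact h _ (hq x hx).1 _ (hq y hy).1 _ (hq z hz).1 h0 x y z (hq x hx).2 (hq y hy).2 (hq z hz).2

end Pool.Agent.Results.MP_e17eac_co.SmallDoubling
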